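import Pool.Agent.Lib.MP_a55e6f_al.Interfaces
import Pool.Agent.Lib.MP_a55e6f_al.Basic

/-!
# MP_a55e6f_al, module P3r: homogeneous right `U_H`-linear maps `B → U_H`. (helper86)
-/

set_option autoImplicit false

attribute [local instance 100] LieRing.ofAssociativeRing

namespace Pool.Agent.A55.H86

/-! ## Splitting multisets over a lexicographic sum -/

section split
variable {JK JH : Type}

/-- the multiset with the two given parts -/
def cmb (α : Multiset JK) (β : Multiset JH) : Multiset (JK ⊕ₗ JH) :=
  α.map (fun a => toLex (Sum.inl a)) + β.map (fun b => toLex (Sum.inr b))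

/-- the first part -/
def partK (s : Multiset (JK ⊕ₗ JH)) : Multiset JK :=
  s.filterMap (fun j => (ofLex j).getLeft?)

/-- the second part -/
def partH (s : Multiset (JK ⊕ₗ JH)) : Multiset JH :=
  s.filterMap (fun j => (ofLex j).getRight?)

theorem partK_cmb (α : Multiset JK) (β : Multiset JH) : partK (cmb α β) = α := by
  rw [partK, cmb, Multiset.filterMap_add, Multiset.filterMap_map, Multiset.filterMap_map]
  have h1 : (fun j : JK ⊕ₗ JH => (ofLex j).getLeft?) ∘ (fun a : JK => toLex (Sum.inl a))
      = some := rfl
  have h2 : (fun j : JK ⊕ₗ JH => (ofLex j).getLeft?) ∘ (fun b : JH => toLex (Sum.inr b))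
      = fun _ => none := rfl
  rw [h1, h2, Multiset.filterMap_some]
  have h3 : ∀ β : Multiset JH, Multiset.filterMap (fun _ : JH => (none : Option JK)) β = 0 := by
    intro β
    induction β using Multiset.induction_on with
    | empty => rfl
    | cons b β ih => rw [Multiset.filterMap_cons_none _ _ rfl, ih]
  rw [h3, add_zero]

theorem partH_cmb (α : Multiset JK) (β : Multiset JH) : partH (cmb α β) = β := by
  rw [partH, cmb, Multiset.filterMap_add, Multiset.filterMap_map, Multiset.filterMap_map]
  have h1 : (fun j : JK ⊕ₗ JH => (ofLex j).getRight?) ∘ (fun a : JK => toLex (Sum.inl a))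
      = fun _ => none := rfl
  have h2 : (fun j : JK ⊕ₗ JH => (ofLex j).getRight?) ∘ (fun b : JH => toLex (Sum.inr b))
      = some := rfl
  rw [h1, h2, Multiset.filterMap_some]
  have h3 : ∀ β : Multiset JK, Multiset.filterMap (fun _ : JK => (none : Option JH)) β = 0 := by
    intro β
    induction β using Multiset.induction_on with
    | empty => rfl
    | cons b β ih => rw [Multiset.filterMap_cons_none _ _ rfl, ih]
  rw [h3, zero_add]

theorem cmb_parts (s : Multiset (JK ⊕ₗ JH)) : cmb (partK s) (partH s) = s := by
  induction s using Multiset.induction_on with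
  | empty => rfl
  | cons j s ih =>
    rcases h : ofLex j with a | b
    · have h1 : partK (j ::ₘ s) = a ::ₘ partK s :=
        Multiset.filterMap_cons_some _ _ _ (by rw [h]; rfl)
      have h2 : partH (j ::ₘ s) = partH s :=
        Multiset.filterMap_cons_none _ _ (by rw [h]; rfl)
      rw [h1, h2, cmb, Multiset.map_cons, Multiset.cons_add]
      congr 1
      rw [← h]; rfl
    · have h1 : partK (j ::ₘ s) = partK s :=
        Multiset.filterMap_cons_none _ _ (by rw [h]; rfl)
      have h2 : partH (j ::ₘ s) = b ::ₘ partH s :=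
        Multiset.filterMap_cons_some _ _ _ (by rw [h]; rfl)
      rw [h1, h2, cmb, Multiset.map_cons, Multiset.add_cons]
      congr 1
      rw [← h]; rfl

theorem cmb_inj {s : Multiset (JK ⊕ₗ JH)} {α : Multiset JK} {β : Multiset JH}
    (h1 : partK s = α) (h2 : partH s = β) : s = cmb α β := by
  rw [← h1, ← h2, cmb_parts]

variable [LinearOrder JK] [LinearOrder JH]

theorem mono_cmb {Q : Type} [Monoid Q] (x : JK ⊕ₗ JH → Q) (α : Multiset JK) (β : Multiset JH) :
    mono x (cmb α β) = mono (fun a => x (toLex (Sum.inl a))) α *
      mono (fun b => x (toLex (Sum.inr b))) β := by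
  have h : (cmb α β).sort (· ≤ ·) =
      (α.sort (· ≤ ·)).map (fun a => toLex (Sum.inl a)) ++
      (β.sort (· ≤ ·)).map (fun b => toLex (Sum.inr b)) := by
    refine List.Perm.eq_of_pairwise' (r := (· ≤ ·)) (Multiset.pairwise_sort _ _) ?_ ?_
    · rw [List.pairwise_append]
      refine ⟨?_, ?_, ?_⟩
      · rw [List.pairwise_map]
        exact (Multiset.pairwise_sort α (· ≤ ·)).imp fun hab => Sum.Lex.inl hab
      · rw [List.pairwise_map]
        exact (Multiset.pairwise_sort β (· ≤ ·)).imp fun hab => Sum.Lex.inr hab
      · intro a ha b hb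
        obtain ⟨a', _, rfl⟩ := List.mem_map.mp ha
        obtain ⟨b', _, rfl⟩ := List.mem_map.mp hb
        exact Sum.Lex.sep _ _
    · rw [← Multiset.coe_eq_coe, Multiset.sort_eq, ← Multiset.coe_add, ← Multiset.map_coe,
        ← Multiset.map_coe, Multiset.sort_eq, Multiset.sort_eq]
      rfl
  rw [mono, h, List.map_append, List.prod_append, mono, mono, List.map_map, List.map_map]
  rfl

end split

/-! ## Homogeneous monomials -/

section homog
variable {k M : Type} [Field k] [Monoid M]

theorem hom_prod {z : M → ℕ} (hz : IsAdd z) {J : Type} (x : J → MonoidAlgebra k M) (dg : J → ℕ)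
    (hx : ∀ j, Hom z (dg j) (x j)) (l : List J) : Hom z (l.map dg).sum (l.map x).prod := by
  induction l with
  | nil => exact hom_one hz
  | cons j l ih =>
    rw [List.map_cons, List.map_cons, List.prod_cons, List.sum_cons]
    exact (hx j).mul hz ih

theorem hom_mono {z : M → ℕ} (hz : IsAdd z) {J : Type} [LinearOrder J]
    (x : J → MonoidAlgebra k M) (dg : J → ℕ)
    (hx : ∀ j, Hom z (dg j) (x j)) (s : Multiset J) : Hom z (s.map dg).sum (mono x s) := by
  have h := hom_prod hz x dg hx (s.sort (· ≤ ·))
  have h2 : ((s.sort (· ≤ ·)).map dg).sum = (s.map dg).sum := by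
    rw [← Multiset.sum_coe, ← Multiset.map_coe, Multiset.sort_eq]
  rw [h2] at h
  exact h

/-- the homogeneous elements of `G` -/
def hset (z : M → ℕ) (G : LieSubalgebra k (MonoidAlgebra k M)) : Set (MonoidAlgebra k M) :=
  {g | g ∈ G ∧ ∃ n, Hom z n g}

theorem mem_span_hset {z : M → ℕ} {G : LieSubalgebra k (MonoidAlgebra k M)} (hG : Graded z G)
    {g : MonoidAlgebra k M} (hg : g ∈ G) : g ∈ Submodule.span k (hset z G) := by
  rw [sum_comp_degOf z g]
  exact Submodule.sum_mem _ fun n _ => Submodule.subset_span ⟨hG n g hg, n, comp_hom z n g⟩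

end homog

/-! ## The theorem -/

section main
variable {k M : Type} [Field k] [Monoid M]

/-- The main computation, for a given adapted homogeneous basis. -/
theorem p3r_core (z : M → ℕ) (hz : IsAdd z) {JK JH : Type} [LinearOrder JK] [LinearOrder JH]
    (x : JK ⊕ₗ JH → MonoidAlgebra k M) (dg : JK ⊕ₗ JH → ℕ) (hx : ∀ j, Hom z (dg j) (x j))
    (U : Subalgebra k (MonoidAlgebra k M))
    (hU : Submodule.span k (Set.range fun t : Multiset JH =>
      mono (fun b => x (toLex (Sum.inr b))) t) = Subalgebra.toSubmodule U)
    (hli : LinearIndependent k (fun s : Multiset (JK ⊕ₗ JH) => mono x s))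
    (hsp : Submodule.span k (Set.range fun s : Multiset (JK ⊕ₗ JH) => mono x s) = ⊤)
    (b : MonoidAlgebra k M) (hb : b ≠ 0) :
    ∃ (d : ℕ) (π : MonoidAlgebra k M →ₗ[k] MonoidAlgebra k M), π b ≠ 0 ∧
    (∀ x, π x ∈ U) ∧
    (∀ x, ∀ u ∈ U, π (x * u) = π x * u) ∧
    (∀ n x, Hom z n x → (d ≤ n → Hom z (n - d) (π x)) ∧ (n < d → π x = 0)) := by
  classical
  let Bas : Module.Basis (Multiset (JK ⊕ₗ JH)) k (MonoidAlgebra k M) :=
    Module.Basis.mk hli (by rw [hsp])
  have hBas : ∀ s, Bas s = mono x s := fun s => Module.Basis.mk_apply _ _ s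
  let xK : JK → MonoidAlgebra k M := fun a => x (toLex (Sum.inl a))
  let xH : JH → MonoidAlgebra k M := fun b => x (toLex (Sum.inr b))
  have hmonoU : ∀ t : Multiset JH, mono xH t ∈ U := by
    intro t
    have : mono xH t ∈ Subalgebra.toSubmodule U := by
      rw [← hU]; exact Submodule.subset_span ⟨t, rfl⟩
    exact this
  let pr : Multiset JK → (MonoidAlgebra k M →ₗ[k] MonoidAlgebra k M) := fun α =>
    Bas.constr k (fun s => if partK s = α then mono xH (partH s) else 0)
  have hpr : ∀ α s, pr α (mono x s) = if partK s = α then mono xH (partH s) else 0 := by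
    intro α s
    rw [← hBas s]
    exact Module.Basis.constr_basis _ _ _ _
  -- value on products
  have hprod : ∀ (α α' : Multiset JK) (v : MonoidAlgebra k M), v ∈ U →
      pr α (mono xK α' * v) = if α' = α then v else 0 := by
    intro α α' v hv
    have hv' : v ∈ Submodule.span k (Set.range fun t : Multiset JH => mono xH t) := by
      change v ∈ Submodule.span k (Set.range fun t : Multiset JH =>
        mono (fun b => x (toLex (Sum.inr b))) t)
      rw [hU]; exact hv
    clear hv
    induction hv' using Submodule.span_induction with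
    | mem v h =>
      obtain ⟨t, rfl⟩ := h
      have h1 : mono xK α' * mono xH t = mono x (cmb α' t) := (mono_cmb x α' t).symm
      simp only []
      rw [h1, hpr, partK_cmb, partH_cmb]
    | zero => rw [mul_zero, map_zero]; split_ifs <;> rfl
    | add v w _ _ h h' =>
      rw [mul_add, map_add, h, h']
      split_ifs
      · rfl
      · rw [add_zero]
    | smul c v _ h =>
      rw [mul_smul_comm, map_smul, h]
      split_ifs
      · rfl
      · rw [smul_zero]
  -- choose the index
  have hne : Bas.repr b ≠ 0 := fun h => hb (by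
    have := Bas.repr.map_eq_zero_iff.mp h
    exact this)
  obtain ⟨s0, hs0⟩ := Finsupp.ne_iff.mp hne
  rw [Finsupp.zero_apply] at hs0
  let α0 := partK s0
  let t0 := partH s0
  have hcoord : ∀ y, Bas.coord (cmb 0 t0) (pr α0 y) = Bas.coord (cmb α0 t0) y := by
    intro y
    have hy : y ∈ Submodule.span k (Set.range fun s : Multiset (JK ⊕ₗ JH) => mono x s) := by
      rw [hsp]; trivial
    induction hy using Submodule.span_induction with
    | mem y h =>
      obtain ⟨s, rfl⟩ := h
      simp only []
      rw [hpr]
      have h1 : Bas.coord (cmb α0 t0) (mono x s) = if s = cmb α0 t0 then 1 else 0 := by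
        rw [← hBas s, Module.Basis.coord_apply, Module.Basis.repr_self, Finsupp.single_apply]
      rw [h1]
      split_ifs with h2 h3 h3
      · subst h3
        rw [partH_cmb]
        have h4 : mono xH t0 = mono x (cmb 0 t0) := by
          rw [mono_cmb]
          have : mono (fun a => x (toLex (Sum.inl a))) (0 : Multiset JK) = 1 := by
            simp [mono]
          rw [this, one_mul]
        rw [h4, ← hBas, Module.Basis.coord_apply, Module.Basis.repr_self,
          Finsupp.single_eq_same]
      · have h4 : mono xH (partH s) = mono x (cmb 0 (partH s)) := by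
          rw [mono_cmb]
          have : mono (fun a => x (toLex (Sum.inl a))) (0 : Multiset JK) = 1 := by
            simp [mono]
          rw [this, one_mul]
        rw [h4, ← hBas, Module.Basis.coord_apply, Module.Basis.repr_self, Finsupp.single_apply,
          if_neg]
        intro h5
        apply h3
        refine cmb_inj h2 ?_
        have := congrArg partH h5
        rwa [partH_cmb, partH_cmb] at this
      · exfalso
        apply h2
        rw [h3, partK_cmb]
      · rw [map_zero]
    | zero => rw [map_zero, map_zero, map_zero]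
    | add u v _ _ h h' => rw [map_add, map_add, map_add, h, h']
    | smul c u _ h => rw [map_smul, map_smul, map_smul, h]
  refine ⟨(α0.map fun a => dg (toLex (Sum.inl a))).sum, pr α0, ?_, ?_, ?_, ?_⟩
  · intro h
    have h1 := hcoord b
    rw [h, map_zero] at h1
    apply hs0
    rw [← Module.Basis.coord_apply, ← cmb_parts s0]
    exact h1.symm
  · intro y
    have hy : y ∈ Submodule.span k (Set.range fun s : Multiset (JK ⊕ₗ JH) => mono x s) := by
      rw [hsp]; trivial
    induction hy using Submodule.span_induction with
    | mem y h =>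
      obtain ⟨s, rfl⟩ := h
      simp only []
      rw [hpr]
      split_ifs
      · exact hmonoU _
      · exact zero_mem _
    | zero => rw [map_zero]; exact zero_mem _
    | add u v _ _ h h' => rw [map_add]; exact add_mem h h'
    | smul c u _ h => rw [map_smul]; exact U.smul_mem h c
  · intro y u hu
    have hy : y ∈ Submodule.span k (Set.range fun s : Multiset (JK ⊕ₗ JH) => mono x s) := by
      rw [hsp]; trivial
    induction hy using Submodule.span_induction with
    | mem y h =>
      obtain ⟨s, rfl⟩ := h
      simp only []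
      have h1 : mono x s = mono xK (partK s) * mono xH (partH s) := by
        rw [← mono_cmb, cmb_parts]
      rw [h1, mul_assoc, hprod _ _ _ (U.mul_mem (hmonoU _) hu), hprod _ _ _ (hmonoU _)]
      split_ifs
      · rfl
      · rw [zero_mul]
    | zero => rw [zero_mul, map_zero, zero_mul]
    | add v w _ _ h h' => rw [add_mul, map_add, map_add, h, h', add_mul]
    | smul c v _ h => rw [smul_mul_assoc, map_smul, map_smul, h, smul_mul_assoc]
  · intro n y hy
    -- the degree of a monomial
    have hD : ∀ s : Multiset (JK ⊕ₗ JH), Hom z (s.map dg).sum (mono x s) := hom_mono hz x dg hx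
    have hDsplit : ∀ s : Multiset (JK ⊕ₗ JH), (s.map dg).sum =
        ((partK s).map fun a => dg (toLex (Sum.inl a))).sum +
        ((partH s).map fun a => dg (toLex (Sum.inr a))).sum := by
      intro s
      conv_lhs => rw [← cmb_parts s]
      rw [cmb, Multiset.map_add, Multiset.sum_add, Multiset.map_map, Multiset.map_map]
      rfl
    set d := (α0.map fun a => dg (toLex (Sum.inl a))).sum with hd
    have key : ∀ (P : Submodule k (MonoidAlgebra k M)),
        (∀ s : Multiset (JK ⊕ₗ JH), (s.map dg).sum = n → partK s = α0 → mono xH (partH s) ∈ P) →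
        ∀ y, pr α0 (comp z n y) ∈ P := by
      intro P hP y
      have hy : y ∈ Submodule.span k (Set.range fun s : Multiset (JK ⊕ₗ JH) => mono x s) := by
        rw [hsp]; trivial
      induction hy using Submodule.span_induction with
      | mem y h =>
        obtain ⟨s, rfl⟩ := h
        simp only []
        by_cases h1 : (s.map dg).sum = n
        · rw [(h1 ▸ hD s : Hom z n (mono x s)).comp_eq, hpr]
          split_ifs with h2
          · exact hP s h1 h2
          · exact zero_mem _
        · rw [(hD s).comp_ne h1, map_zero]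
          exact zero_mem _
      | zero => rw [map_zero, map_zero]; exact zero_mem _
      | add u v _ _ h h' => rw [map_add, map_add]; exact add_mem h h'
      | smul c u _ h => rw [map_smul, map_smul]; exact P.smul_mem c h
    have hHdeg : ∀ t : Multiset JH,
        Hom z (t.map fun a => dg (toLex (Sum.inr a))).sum (mono xH t) := by
      intro t
      exact hom_mono hz xH (fun a => dg (toLex (Sum.inr a))) (fun a => hx _) t
    refine ⟨fun hdn => ?_, fun hnd => ?_⟩
    · have h1 := key (homSub k z (n - d)) (by
        intro s hs hs2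
        rw [mem_homSub]
        have h2 := hDsplit s
        rw [hs, hs2, ← hd] at h2
        have h3 : (((partH s).map fun a => dg (toLex (Sum.inr a))).sum) = n - d := by omega
        rw [← h3]
        exact hHdeg _) y
      rw [hy.comp_eq] at h1
      exact h1
    · have h1 := key ⊥ (by
        intro s hs hs2
        exfalso
        have h2 := hDsplit s
        rw [hs, hs2, ← hd] at h2
        omega) y
      rw [hy.comp_eq] at h1
      exact h1

end main

theorem p3r (hPB : PBWStatement) (hSP : SpanStatement) : P3rStatement := by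
  classical
  intro k M _ _ z hz G hG hGr H hHG hHr b hb
  -- homogeneous bases
  obtain ⟨BH, hBHs, -, hBHt, hBHli⟩ := exists_linearIndepOn_id_extension
    (linearIndepOn_empty k id : LinearIndepOn k id (∅ : Set (MonoidAlgebra k M)))
    (Set.empty_subset (hset z H))
  have hsub : BH ⊆ hset z G := fun g hg => ⟨hHG (hBHs hg).1, (hBHs hg).2⟩
  obtain ⟨BG, hBGs, hBHG, hBGt, hBGli⟩ := exists_linearIndepOn_id_extension hBHli hsub
  obtain ⟨oK, _⟩ := exists_wellFoundedLT (α := ↥(BG \ BH))
  obtain ⟨oH, _⟩ := exists_wellFoundedLT (α := ↥BH)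
  let JK := ↥(BG \ BH)
  let JH := ↥BH
  let _ : LinearOrder JK := oK
  let _ : LinearOrder JH := oH
  let f : JK ⊕ₗ JH → BG := fun j => match ofLex j with
    | Sum.inl a => ⟨a.1, a.2.1⟩
    | Sum.inr a => ⟨a.1, hBHG a.2⟩
  have hf : Function.Bijective f := by
    constructor
    · intro i j hij
      rcases hi : ofLex i with a | a <;> rcases hj : ofLex j with a' | a'
      · have h1 : f i = ⟨a.1, a.2.1⟩ := by simp only [f, hi]
        have h2 : f j = ⟨a'.1, a'.2.1⟩ := by simp only [f, hj]
        rw [h1, h2] at hij
        have h3' : a.1 = a'.1 := congrArg (fun t : BG => t.1) hij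
        have h3 : a = a' := Subtype.ext h3'
        rw [h3, ← hj] at hi
        exact ofLex.injective hi
      · exfalso
        have h1 : f i = ⟨a.1, a.2.1⟩ := by simp only [f, hi]
        have h2 : f j = ⟨a'.1, hBHG a'.2⟩ := by simp only [f, hj]
        rw [h1, h2] at hij
        have h3 : a.1 = a'.1 := congrArg Subtype.val hij
        exact a.2.2 (h3 ▸ a'.2)
      · exfalso
        have h1 : f i = ⟨a.1, hBHG a.2⟩ := by simp only [f, hi]
        have h2 : f j = ⟨a'.1, a'.2.1⟩ := by simp only [f, hj]
        rw [h1, h2] at hij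
        have h3 : a.1 = a'.1 := congrArg Subtype.val hij
        exact a'.2.2 (h3 ▸ a.2)
      · have h1 : f i = ⟨a.1, hBHG a.2⟩ := by simp only [f, hi]
        have h2 : f j = ⟨a'.1, hBHG a'.2⟩ := by simp only [f, hj]
        rw [h1, h2] at hij
        have h3' : a.1 = a'.1 := congrArg (fun t : BG => t.1) hij
        have h3 : a = a' := Subtype.ext h3'
        rw [h3, ← hj] at hi
        exact ofLex.injective hi
    · rintro ⟨g, hg⟩
      by_cases h : g ∈ BH
      · exact ⟨toLex (Sum.inr ⟨g, h⟩), rfl⟩
      · exact ⟨toLex (Sum.inl ⟨g, hg, h⟩), rfl⟩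
  let x : JK ⊕ₗ JH → MonoidAlgebra k M := fun j => (f j : MonoidAlgebra k M)
  have hxG : ∀ j, x j ∈ G := fun j => (hBGs (f j).2).1
  have hxli : LinearIndependent k x := by
    have h1 : LinearIndependent k (fun g : BG => (g : MonoidAlgebra k M)) := hBGli
    exact h1.comp f hf.1
  have hrange : Set.range x = BG := by
    ext g
    constructor
    · rintro ⟨j, rfl⟩; exact (f j).2
    · intro hg
      obtain ⟨j, hj⟩ := hf.2 ⟨g, hg⟩
      exact ⟨j, congrArg Subtype.val hj⟩
  let y : JK ⊕ₗ JH → G := fun j => ⟨x j, hxG j⟩
  have hyli : LinearIndependent k y := by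
    refine LinearIndependent.of_comp G.toSubmodule.subtype ?_
    exact hxli
  have hysp : ⊤ ≤ Submodule.span k (Set.range y) := by
    rintro ⟨g, hg⟩ _
    have h1 : g ∈ Submodule.span k (Set.range x) := by
      rw [hrange]
      have h2 := mem_span_hset hGr hg
      refine (Submodule.span_le.mpr ?_) h2
      exact hBGt
    have h3 : Set.range x = G.toSubmodule.subtype '' (Set.range y) := by
      rw [← Set.range_comp]; rfl
    rw [h3, ← Submodule.map_span, Submodule.mem_map] at h1
    obtain ⟨w, hw, hwg⟩ := h1
    have : w = (⟨g, hg⟩ : G) := Subtype.ext hwg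
    rw [← this]; exact hw
  let basG : Module.Basis (JK ⊕ₗ JH) k G := Module.Basis.mk hyli hysp
  have hbasG : ∀ j, ((basG j : G) : MonoidAlgebra k M) = x j := by
    intro j
    have : basG j = y j := Module.Basis.mk_apply _ _ j
    rw [this]
  obtain ⟨hli, hsp⟩ := hPB k M G hG (JK ⊕ₗ JH) basG
  have hfun : (fun j => ((basG j : G) : MonoidAlgebra k M)) = x := funext hbasG
  rw [hfun] at hli hsp
  choose dg hdg using fun j : JK ⊕ₗ JH => (hBGs (f j).2).2
  have hH : Submodule.span k (Set.range fun a : JH => x (toLex (Sum.inr a)))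
      = H.toSubmodule := by
    have h1 : (Set.range fun a : JH => x (toLex (Sum.inr a))) = BH := by
      ext g
      constructor
      · rintro ⟨a, rfl⟩; exact a.2
      · intro hg; exact ⟨⟨g, hg⟩, rfl⟩
    rw [h1]
    apply le_antisymm
    · rw [Submodule.span_le]
      intro g hg; exact (hBHs hg).1
    · intro g hg
      have h2 := mem_span_hset hHr (show g ∈ H from hg)
      exact (Submodule.span_le.mpr hBHt) h2
  have hU := hSP k (MonoidAlgebra k M) JH (fun a => x (toLex (Sum.inr a))) (by
    intro i j
    rw [hH]
    have h1 : ∀ a : JH, x (toLex (Sum.inr a)) ∈ H := fun a => (hBHs a.2).1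
    have h2 := H.lie_mem (h1 i) (h1 j)
    rw [LieRing.of_associative_ring_bracket] at h2
    exact h2)
  have hadj : Algebra.adjoin k (Set.range fun a : JH => x (toLex (Sum.inr a)))
      = Algebra.adjoin k (H : Set (MonoidAlgebra k M)) := by
    apply le_antisymm
    · refine Algebra.adjoin_mono ?_
      rintro _ ⟨a, rfl⟩
      exact (hBHs a.2).1
    · refine Algebra.adjoin_le ?_
      intro g hg
      have h1 : g ∈ Submodule.span k (Set.range fun a : JH => x (toLex (Sum.inr a))) := by
        rw [hH]; exact hg
      exact Algebra.span_le_adjoin k _ h1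
  rw [hadj] at hU
  exact p3r_core z hz x dg hdg _ hU hli hsp b hb

end Pool.Agent.A55.H86
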