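import Pool.Agent.Lib.MP_a55e6f_al.Interfaces
import Pool.Agent.Lib.MP_a55e6f_al.Basic
import Pool.Agent.Lib.MP_a55e6f_al.H86.FL

/-!
# MP_a55e6f_al, module UI: `L → U(L)` is injective in characteristic 0. (helper86)
-/

set_option autoImplicit false

attribute [local instance 100] LieRing.ofAssociativeRing

namespace Pool.Agent.A55.H86

section UI
variable {k L : Type} [Field k] [LieRing L] [LieAlgebra k L]

variable (k L) in
/-- the canonical surjection `FreeLieAlgebra k L → L` -/
noncomputable def pr : FreeLieAlgebra k L →ₗ⁅k⁆ L := FreeLieAlgebra.lift k (id : L → L)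

theorem pr_of (l : L) : pr k L (FreeLieAlgebra.of k l) = l := by simp [pr]

/-- the image of the free Lie algebra on a set `S` in the free algebra `FA k S` -/
noncomputable abbrev imF (k S : Type) [Field k] : LieSubalgebra k (FA k S) :=
  (ph (k := k) (S := S)).range

/-- `FA k S` is the enveloping algebra of the image of the free Lie algebra -/
theorem envPair_imF (S : Type) : EnvPair (imF k S) where
  gen := by
    rw [eq_top_iff, ← adjoin_letters]
    refine Algebra.adjoin_mono ?_
    rintro _ ⟨s, rfl⟩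
    exact ⟨FreeLieAlgebra.of k s, ph_of s⟩
  ext := by
    intro Q _ _ f
    refine ⟨ev (fun s => f ⟨letter k s, ⟨FreeLieAlgebra.of k s, ph_of s⟩⟩), ?_⟩
    set F := ev (k := k) (fun s => f ⟨letter k s, ⟨FreeLieAlgebra.of k s, ph_of s⟩⟩) with hF
    have h : (AlgHom.toLieHom F).comp (ph (k := k) (S := S)) = f.comp (ph (k := k)).rangeRestrict := by
      refine FreeLieAlgebra.hom_ext fun s => ?_
      have h1 : (ph (k := k)).rangeRestrict (FreeLieAlgebra.of k s)
          = (⟨letter k s, ⟨FreeLieAlgebra.of k s, ph_of s⟩⟩ : imF k S) :=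
        Subtype.ext (ph_of s)
      rw [LieHom.comp_apply, LieHom.comp_apply, h1]
      change F (ph (FreeLieAlgebra.of k s)) = _
      rw [ph_of, hF, ev_letter]
    rintro ⟨_, x, rfl⟩
    have := congrArg (fun g => g x) h
    exact this

variable (k L) in
/-- the image of the kernel of `FreeLieAlgebra k L → L` -/
noncomputable def kerF : LieSubalgebra k (FA k L) where
  carrier := {a | ∃ x, pr k L x = 0 ∧ ph x = a}
  add_mem' := by
    rintro _ _ ⟨x, hx, rfl⟩ ⟨y, hy, rfl⟩
    exact ⟨x + y, by rw [map_add, hx, hy, add_zero], map_add _ _ _⟩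
  zero_mem' := ⟨0, map_zero _, map_zero _⟩
  smul_mem' := by
    rintro c _ ⟨x, hx, rfl⟩
    exact ⟨c • x, by rw [map_smul, hx, smul_zero], map_smul _ _ _⟩
  lie_mem' := by
    rintro _ _ ⟨x, hx, rfl⟩ ⟨y, hy, rfl⟩
    exact ⟨⁅x, y⁆, by rw [LieHom.map_lie, hx, hy, lie_self], LieHom.map_lie _ _ _⟩

variable (k L) in
/-- the left ideal generated by `kerF` -/
noncomputable def idF : Ideal (FA k L) := Ideal.span (kerF k L : Set (FA k L))

theorem mem_idF {x : FreeLieAlgebra k L} (h : pr k L x = 0) : ph x ∈ idF k L :=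
  Ideal.subset_span ⟨x, h, rfl⟩

theorem idF_mul_ph (x : FreeLieAlgebra k L) {a : FA k L} (ha : a ∈ idF k L) :
    a * ph x ∈ idF k L := by
  induction ha using Submodule.span_induction with
  | mem a ha =>
    obtain ⟨r, hr, rfl⟩ := ha
    have h : (ph r : FA k L) * ph x = ph x * ph r - ph ⁅x, r⁆ := by
      rw [LieHom.map_lie, LieRing.of_associative_ring_bracket]; abel
    rw [h]
    refine sub_mem (Ideal.mul_mem_left _ _ (mem_idF hr)) (mem_idF ?_)
    rw [LieHom.map_lie, hr, lie_zero]
  | zero => rw [zero_mul]; exact zero_mem _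
  | add a b _ _ h h' => rw [add_mul]; exact add_mem h h'
  | smul c a _ h => rw [smul_eq_mul, mul_assoc]; exact Ideal.mul_mem_left _ _ h

instance : (idF k L).IsTwoSided where
  mul_mem_of_left := by
    intro a b ha
    have hb : b ∈ Algebra.adjoin k (Set.range (letter k : L → FA k L)) := by
      rw [adjoin_letters]; trivial
    induction hb using Algebra.adjoin_induction generalizing a with
    | mem b hb =>
      obtain ⟨l, rfl⟩ := hb
      rw [← ph_of]
      exact idF_mul_ph _ ha
    | algebraMap c =>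
      rw [← Algebra.commutes]
      exact Ideal.mul_mem_left _ _ ha
    | add b c _ _ h h' => rw [mul_add]; exact add_mem (h ha) (h' ha)
    | mul b c _ _ h h' => rw [← mul_assoc]; exact h' (h ha)

theorem mk_ph (x : FreeLieAlgebra k L) :
    (Ideal.Quotient.mk (idF k L)) (ph x) = (Ideal.Quotient.mk (idF k L)) (letter k (pr k L x)) := by
  rw [Ideal.Quotient.eq, ← ph_of, ← map_sub]
  refine mem_idF ?_
  rw [map_sub, pr_of, sub_self]

variable (k L) in
/-- the Lie map `L → A / I` -/
noncomputable def qm : L →ₗ⁅k⁆ (FA k L ⧸ idF k L) where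
  toFun l := (Ideal.Quotient.mk (idF k L)) (letter k l)
  map_add' l m := by
    have h := mk_ph (FreeLieAlgebra.of k l + FreeLieAlgebra.of k m)
    have h2 : pr k L (FreeLieAlgebra.of k l + FreeLieAlgebra.of k m) = l + m := by
      rw [map_add, pr_of, pr_of]
    rw [h2, map_add, map_add, ph_of, ph_of] at h
    exact h.symm
  map_smul' c l := by
    have h := mk_ph (c • FreeLieAlgebra.of k l)
    have h2 : pr k L (c • FreeLieAlgebra.of k l) = c • l := by
      rw [map_smul, pr_of]
    have h3 : (ph (c • FreeLieAlgebra.of k l) : FA k L) = c • letter k l := by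
      rw [map_smul, ph_of]
    rw [h2, h3] at h
    exact h.symm
  map_lie' := by
    intro l m
    have h := mk_ph ⁅FreeLieAlgebra.of k l, FreeLieAlgebra.of k m⁆
    have h2 : pr k L ⁅FreeLieAlgebra.of k l, FreeLieAlgebra.of k m⁆ = ⁅l, m⁆ := by
      rw [LieHom.map_lie, pr_of, pr_of]
    rw [h2, LieHom.map_lie, ph_of, ph_of,
      LieRing.of_associative_ring_bracket, map_sub, map_mul, map_mul] at h
    exact h.symm

end UI

theorem ueaInj (hP1 : P1Statement) : UEAInjStatement := by
  intro k L _ _ _ _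
  rw [injective_iff_map_eq_zero]
  intro l hl
  have h1 : qm k L l = 0 := by
    rw [← UniversalEnvelopingAlgebra.lift_ι_apply k (qm k L) l, hl, map_zero]
  have h2 : letter k l ∈ idF k L := Ideal.Quotient.eq_zero_iff_mem.mp h1
  have h3 : letter k l ∈ kerF k L := by
    refine hP1 k (FreeMonoid L) (imF k L) (envPair_imF L) (kerF k L) ?_ _ ?_ h2
    · rintro _ ⟨x, _, rfl⟩
      exact ⟨x, rfl⟩
    · exact ⟨FreeLieAlgebra.of k l, ph_of l⟩
  obtain ⟨x, hx, hxl⟩ := h3
  have h4 : x = FreeLieAlgebra.of k l := by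
    have := freeLie k L
    refine this ?_
    change ph x = ph (FreeLieAlgebra.of k l)
    rw [hxl, ph_of]
  rw [h4, pr_of] at hx
  exact hx

end Pool.Agent.A55.H86
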